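import Pool.Agent.WR4.StmtsB

namespace Pool.Agent.WR4.H69

open Pool.Agent.WIR Pool.Agent.WR2 Pool.Agent.WR3 Pool.Agent.WR4
open scoped BigOperators ENNReal Topology
open Filter MeasureTheory

theorem sya_int (hs : SymStmt) (hm : MeaStmt) (m : ℕ) :
    ∫⁻ x, ENNReal.ofReal (3 ^ m * Sy m (PadicInt.toZModPow m x) - Wp m x) ∂μ3
      ≤ ENNReal.ofReal (Real.exp (-((m : ℝ) / 6))) := by
  have h := (hm.2 m (fun y => ENNReal.ofReal (3 ^ m * Sy m y - W m y))).2
  have h3 : (0 : ℝ) < 3 ^ m := by positivity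
  have e1 : (fun x : ℤ_[3] => ENNReal.ofReal (3 ^ m * Sy m (PadicInt.toZModPow m x) - Wp m x))
      = fun x : ℤ_[3] => (fun y => ENNReal.ofReal (3 ^ m * Sy m y - W m y))
        (PadicInt.toZModPow m x) := by
    funext x; rfl
  rw [e1, h]
  rw [← ENNReal.ofReal_sum_of_nonneg (fun y _ => sub_nonneg.2 (hs.1 m y))]
  have e2 : ((3 : ℝ≥0∞) ^ m) = ENNReal.ofReal ((3 : ℝ) ^ m) := by
    rw [ENNReal.ofReal_pow (by norm_num)]
    norm_num
  rw [e2, ← ENNReal.ofReal_div_of_pos h3]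
  apply ENNReal.ofReal_le_ofReal
  refine le_trans (le_of_eq ?_) (hs.2 m)
  rw [Finset.sum_div]
  apply Finset.sum_congr rfl
  intro y _
  rw [sub_div]
  congr 1
  field_simp

theorem sya (hs : SymStmt) (hm : MeaStmt) : SyaStmt := by
  intro w hw
  have hmeas : ∀ m : ℕ, Measurable (fun x : ℤ_[3] =>
      ENNReal.ofReal (3 ^ m * Sy m (PadicInt.toZModPow m x) - Wp m x)) := fun m =>
    (hm.2 m (fun y => ENNReal.ofReal (3 ^ m * Sy m y - W m y))).1
  have hfin : ∫⁻ x, ∑' m : ℕ,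
      ENNReal.ofReal (3 ^ m * Sy m (PadicInt.toZModPow m x) - Wp m x) ∂μ3 ≠ ⊤ := by
    rw [lintegral_tsum (fun m => (hmeas m).aemeasurable)]
    have hsum : Summable (fun m : ℕ => Real.exp (-((m : ℝ) / 6))) := by
      have : (fun m : ℕ => Real.exp (-((m : ℝ) / 6))) = fun m : ℕ => (Real.exp (-(1 / 6))) ^ m := by
        funext m
        rw [← Real.exp_nat_mul]
        congr 1
        ring
      rw [this]
      apply summable_geometric_of_lt_one (Real.exp_pos _).le
      rw [Real.exp_lt_one_iff]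
      norm_num
    refine ne_top_of_le_ne_top ?_ (ENNReal.tsum_le_tsum (fun m => sya_int hs hm m))
    rw [← ENNReal.ofReal_tsum_of_nonneg (fun m => (Real.exp_pos _).le) hsum]
    exact ENNReal.ofReal_ne_top
  have hae := ae_lt_top (Measurable.ennreal_tsum hmeas) hfin
  filter_upwards [hw, hae] with x hx1 hx2
  have ht := ENNReal.tendsto_atTop_zero_of_tsum_ne_top hx2.ne
  have ht2 : Tendsto (fun m : ℕ => 3 ^ m * Sy m (PadicInt.toZModPow m x) - Wp m x) atTop (𝓝 0) := by
    have h := (ENNReal.tendsto_toReal ENNReal.zero_ne_top).comp ht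
    refine h.congr (fun m => ?_)
    simp only [Function.comp]
    exact ENNReal.toReal_ofReal (sub_nonneg.2 (hs.1 m _))
  have h3 := ht2.add hx1
  refine (h3.congr (fun m => ?_)).trans (by simp)
  ring

end Pool.Agent.WR4.H69
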